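import Pool.Agent.ASY.SEQC

/-!
# MP_46b841_nt: Stark's conjecture is equivalent to its asymptotic form along one sparse sequence of
characters, in every group topology of `ℂˣ`; convergence of the quotients is enough

Let `T` be a finite set of prime numbers, `E` a number field, `ε > 0`, and let `F, g : ℕ → ℕ` be
functions with `g → ∞`. There is a sequence of finite Galois extensions of number fields `L_j / K_j`
with faithful linear characters `ψ_j` of `Gal(L_j / K_j)` and `[K_j : ℚ] ≥ F(j)`, such that `K_j` has
a Galois extension with quasi-elementary group which contains `E`, and either `K_j` is totally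
complex, `L_j / K_j` is unramified and the primes above `T` split completely in `L_j / K_j`, or
`[L_j : K_j] = p^n`, `E K_j / K_j` is a `p`-extension, `L_j` is totally complex and `K_j` has at most
`ε [K_j : ℚ]` real places, and such that the following holds for every group topology `τ` of `ℂˣ`
(for instance the usual one), with `N` the closure of `1` (`N = 1` if `τ` is Hausdorff), for every
set `J` of natural numbers which contains the interval `[a, a + g(a)]` for infinitely many `a`, and
for every automorphism `σ` of `ℂ`: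

`A_S(χ, φ)^σ ∈ N A_S(χ^σ, φ)` for all characters `χ` of all finite Galois extensions of number
fields and all `S`, `φ` (for `N = 1` this is Stark's conjecture for `σ`) if and only if, with
`S = S_∞`, there are `u_j` with `A(ψ_j, φ)^σ = u_j A(ψ_j^σ, φ)` for almost all `j ∈ J` and all `φ`
such that `u_(j+1) / u_j` tends to `1` in `τ` for `j ∈ J`, `j + 1 ∈ J` (this holds if `u_j`,
`j ∈ J`, converges), and `A(ψ, φ)^σ ∈ N A(ψ^σ, φ)` for the totally odd faithful linear characters
`ψ` over totally real fields (Siegel's theorem).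
-/

open NumberField Filter

theorem Pool.Agent.Results.MP_46b841_nt.AsymptoticForm.result :
    ∀ (T : Finset ℕ) (E : Type) [Field E] [NumberField E] (ε : ℝ), 0 < ε →
    ∀ F g : ℕ → ℕ, Tendsto g atTop atTop →
      ∃ (K L : ℕ → Type) (_ : ∀ j, Field (K j)) (_ : ∀ j, NumberField (K j))
        (_ : ∀ j, Field (L j)) (_ : ∀ j, NumberField (L j)) (_ : ∀ j, Algebra (K j) (L j))
        (_ : ∀ j, IsGalois (K j) (L j)) (ψ : ∀ j, (L j ≃ₐ[K j] L j) →* ℂˣ),
        (∀ j, Function.Injective (ψ j) ∧ F j ≤ Module.finrank ℚ (K j) ∧ StarkW.QExt E (K j) ∧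
          (StarkW.UnrPair T (K j) (L j) ∨ StarkW.PowPair E ε (K j) (L j))) ∧
        ∀ (τ : GroupTopology ℂˣ) (J : Set ℕ),
          (∃ᶠ a in atTop, ∀ j, a ≤ j → j ≤ a + g a → j ∈ J) → ∀ σ : ℂ ≃+* ℂ,
          (StarkW.ConjIn (StarkW.clOne τ) σ ↔
            StarkW.SlowOne τ J σ K L ψ ∧ StarkW.OddIn (StarkW.clOne τ) σ) := by
  intro T E _ _ ε hε F g hg
  obtain ⟨Y, h1, h2⟩ := StarkC.ASY.mainB T E ε hε F g hg
  exact ⟨fun j => (Y j).K, fun j => (Y j).L, fun j => (Y j).fK, fun j => (Y j).nK,
    fun j => (Y j).fL, fun j => (Y j).nL, fun j => (Y j).alg, fun j => (Y j).gal,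
    fun j => (Y j).ψ, fun j => ⟨(Y j).inj, h1 j⟩, h2⟩
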