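import Pool.Agent.StarkLoc.SQFK

/-!
# MP_46b841_nt: the exact range of the reduction to ideal class characters

Let `L/K` be a finite Galois extension of number fields, `χ` a character of `Gal(L/K)`, `T` a
finite set of primes and `n ≥ 1`.

If the inertia groups of `L/K` have exponent at most `2`, then every character `χ` of `Gal(L/K)`
with values in `ℚ(ζ_n)` reduces to ideal class characters of order dividing `n`: some nonzero
multiple of `χ` is, after inflation to `Gal(N/K)` for some `N ⊇ L`, in the group generated by the
characters induced from the trivial characters and the ideal class characters of order dividing `n`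
of totally complex fields between `K` and `N`, and Stark's conjecture up to roots of unity for `χ`
and `σ ∈ Aut(ℂ)` follows from that for `σ` and these class characters.

In general, some nonzero multiple of `χ` is, after inflation to `Gal(N/K)` for some `N ⊇ L`, in the
group generated by the characters induced from the (narrow) ideal class characters of order
dividing `n` of the fields between `K` and `N` which are trivial at the primes above `T`, if and
only if `χ` has its values in `ℚ(ζ_n)` and satisfies a condition at every prime of `L`:
`χ(x y^u) = χ(x y)` for commuting elements `x` of the decomposition group and `y` of the inertia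
group, of coprime orders, `u` prime to the order of `y`, and `χ(x^a) = χ(x)` for `x` in the
decomposition group of a prime above `T`, `a` prime to the order of `x`.  In this case one can take
cyclic extensions, and trivial characters and class characters of totally complex fields, and
Stark's conjecture up to roots of unity for `χ` and `σ ∈ Aut(ℂ)` follows from that for `σ` and the
ideal class characters of totally complex fields.
-/

open NumberField IsDedekindDomain StarkP StarkV StarkK

theorem Pool.Agent.Results.MP_46b841_nt.ClassCharacterRange.result
    (K L : Type) [Field K] [NumberField K] [Field L] [NumberField L] [Algebra K L] [IsGalois K L]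
    (V : Type) [AddCommGroup V] [Module ℂ V] [Module.Finite ℂ V]
    (ρ : Representation ℂ (L ≃ₐ[K] L) V) (n : ℕ) (hn : 0 < n) :
    ((∀ (w : HeightOneSpectrum (𝓞 L)) (y : L ≃ₐ[K] L), FrobPow L w 1 y → y * y = 1) →
      (∀ g, ρ.character g ∈ cycField n) → ∀ (E : Type) [Field E] [NumberField E],
        ReducesCyclic E ∅ n ρ.character ∧
          ∀ σ : ℂ ≃+* ℂ, ClassA E ∅ n σ → StarkRatAll ρ σ) ∧
    ∀ T : Finset ℕ,
      (Local T n ρ.character ↔ Reduces T n ρ.character) ∧
      (Reduces T n ρ.character ↔
        ∀ (E : Type) [Field E] [NumberField E], ReducesCyclic E T n ρ.character) ∧
      (Reduces T n ρ.character → ∀ (E : Type) [Field E] [NumberField E] (σ : ℂ ≃+* ℂ),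
        ClassA E T n σ → StarkRatAll ρ σ) :=
  ⟨fun h hv E _ _ => StarkSQF.reduces_of_sq K L V ρ n hn h hv E,
    fun T => StarkKB.main_all K L V ρ T n hn⟩
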