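import Pool.Agent.StarkAlg.GDefs
import Pool.Agent.StarkAlg.GVal

/-!
# MP_46b841_nt: the numbers `A_S(χ, φ)` are products of those of ideal class characters

For every `n ≥ 1`, every subgroup `G` of `ℂˣ` containing `ℚ(ζ_n)ˣ`, every number field `E` and
every finite set `T` of prime numbers: for all characters `χ` with values in `ℚ(ζ_n)` of all finite
Galois extensions of number fields, all `S` and all `φ` a power of `A_S(χ, φ)` lies in `G` if and
only if this holds, with `S = S_∞`, for the faithful linear characters `ψ` of `Gal(L/K)` in two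
cases: (A) `ψ^n = 1`, `K` is totally complex, `L/K` is unramified, the primes above `T` split
completely in `L`, and `L` lies in a field `N ⊇ E`, Galois over `ℚ` and cyclic over `K`;
(B) `K` is totally real, `ψ` is totally odd and has its values in `ℚ(ζ_n)`.

With `G` the group generated by `ℚ(ζ_n)ˣ` and the numbers of (A) and (B): up to roots and factors
in `ℚ(ζ_n)ˣ`, every `A_S(χ, φ)` is a product of numbers `A(ψ, φ)^{±1}` of (A) and (B).
-/

theorem Pool.Agent.Results.MP_46b841_nt.ClassCharactersGenerate.result :
    ∀ n : ℕ, 0 < n → ∀ G : Subgroup ℂˣ, (∀ u : ℂˣ, (u : ℂ) ∈ StarkV.cycField n → u ∈ G) →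
    ∀ (E : Type) [Field E] [NumberField E] (T : Finset ℕ),
      (StarkM.Values G n ↔ StarkM.ValuesA G E T n ∧ StarkM.ValuesB G n) :=
  fun n hn G hG E _ _ T => StarkG.main G E T n hn hG
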