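import Pool.Agent.CGR.SEQQ

/-!
# MP_46b841_nt: Stark's conjecture is equivalent to the congruence, modulo one prime number for each
member, of the quotients of consecutive members of one sparse sequence of characters

Let `F, g : ℕ → ℕ` be functions with `g → ∞`.  There is a sequence of cyclic extensions of number
fields `L_j / K_j` with faithful linear characters `ψ_j` of `Gal(L_j / K_j)` and `[K_j : ℚ] ≥ F(j)`,
each of which is unramified over a totally complex field `K_j` or has prime power degree and a
totally complex field `L_j`, such that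

* for every finite set `T` of prime numbers, every number field `E` and every `ε > 0`, for all but
  finitely many `j`, `K_j` has a Galois extension with quasi-elementary group which contains `E`,
  and either `K_j` is totally complex, `L_j / K_j` is unramified and the primes above `T` split
  completely in `L_j / K_j`, or `[L_j : K_j] = p^n`, `E K_j / K_j` is a `p`-extension, `L_j` is
  totally complex and `K_j` has at most `ε [K_j : ℚ]` real places;
* for every infinite set `P` of prime numbers there are `p_j ∈ P` with `p_j → ∞` such that for every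
  set `J` of natural numbers which contains the interval `[a, a + g(a)]` for infinitely many `a`,
  and for every automorphism `σ` of `ℂ`, Stark's conjecture for `σ` and all characters of all finite
  Galois extensions of number fields is equivalent to the following: with `S = S_∞` there are
  `u_j`, `j ∈ J`, with `A(ψ_j, φ)^σ = u_j A(ψ_j^σ, φ)` for all `φ`, and `u_(j+1) / u_j ≡ 1` modulo
  `p_j` for `j, j + 1 ∈ J` with `p_(j+1) = p_j`; and the conjecture for `σ` holds for the totally
  odd faithful linear characters over totally real fields (Siegel's theorem).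
-/

open NumberField Filter

theorem Pool.Agent.Results.MP_46b841_nt.SparseSequenceModP.result :
    ∀ (F g : ℕ → ℕ), Tendsto g atTop atTop →
      ∃ (K L : ℕ → Type) (_ : ∀ j, Field (K j)) (_ : ∀ j, NumberField (K j))
        (_ : ∀ j, Field (L j)) (_ : ∀ j, NumberField (L j)) (_ : ∀ j, Algebra (K j) (L j))
        (_ : ∀ j, IsGalois (K j) (L j)) (ψ : ∀ j, (L j ≃ₐ[K j] L j) →* ℂˣ),
        (∀ j, Function.Injective (ψ j) ∧ F j ≤ Module.finrank ℚ (K j) ∧
          (StarkW.UnrPair ∅ (K j) (L j) ∨ StarkW.PowPair ℚ 1 (K j) (L j))) ∧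
        (∀ (T : Finset ℕ) (E : Type) [Field E] [NumberField E] (ε : ℝ), 0 < ε →
          ∀ᶠ j in atTop, StarkW.QExt E (K j) ∧
            (StarkW.UnrPair T (K j) (L j) ∨ StarkW.PowPair E ε (K j) (L j))) ∧
        ∀ P : Set ℕ, P.Infinite → (∀ p ∈ P, p.Prime) →
          ∃ p : ℕ → ℕ, (∀ j, p j ∈ P) ∧ Tendsto p atTop atTop ∧
            ∀ J : Set ℕ, (∃ᶠ a in atTop, ∀ j, a ≤ j → j ≤ a + g a → j ∈ J) → ∀ σ : ℂ ≃+* ℂ,
              (StarkW.ConjAt σ ↔ StarkW.StepMod p J σ K L ψ ∧ StarkW.OddAt σ) := by
  intro F g hg
  obtain ⟨Y, h1, h2, h3⟩ := StarkC.CGR.mainQ F g hg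
  exact ⟨fun j => (Y j).K, fun j => (Y j).L, fun j => (Y j).fK, fun j => (Y j).nK,
    fun j => (Y j).fL, fun j => (Y j).nL, fun j => (Y j).alg, fun j => (Y j).gal,
    fun j => (Y j).ψ, fun j => ⟨(Y j).inj, h1 j⟩, h2, h3⟩
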