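import Pool.Agent.SSQ.FIN2

/-!
# MP_46b841_nt: the numbers `A_S(χ, φ)` and one sparse sequence of class characters

For all functions `F, g : ℕ → ℕ`, `g → ∞`, there is one sequence of cyclic extensions `L_j/K_j` of
number fields, `j = 0, 1, 2, ...`, such that

* `[K_j : ℚ] ≥ F(j)`, `K_j` is totally complex, `L_j/K_j` is unramified, and `𝓞 L_j` has a basis
  over `𝓞 K_j` which consists of the conjugates of one element (a normal integral basis);
* for every finite set `T` of prime numbers the primes of `K_j` above `T` split completely in `L_j`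
  for all but finitely many `j`;
* for every number field `E` and for all but finitely many `j` the field `L_j` lies in a field `N`
  which contains a copy of `E`, is Galois over `ℚ` and abelian over `K_j`;
* for every set `J` of natural numbers which contains the interval `[a, a + g(a)]` for infinitely
  many `a`, all `n ≥ 1` and every subgroup `G` of `ℂˣ` which contains `ℚ(ζ_n)ˣ`: a power of
  `A_S(χ, φ)` lies in `G` for all characters `χ` with values in `ℚ(ζ_n)` of all finite Galois
  extensions of number fields, all `S` and all `φ`, if and only if this holds, with `S = S_∞`, for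
  the faithful linear characters `ψ`, `ψ^n = 1`, of `Gal(L_j/K_j)`, `j ∈ J`, and for the faithful,
  totally odd linear characters with values in `ℚ(ζ_n)` of `Gal(L/K)`, `K` totally real.

With `G = ℚ̄ˣ`: the numbers `A_S(χ, φ)` are algebraic if the numbers `A(ψ, φ)` of the sequence are
(the numbers of the totally odd characters are in `ℚ(ζ_n)` by Siegel's theorem).
-/

open Filter

theorem Pool.Agent.Results.MP_46b841_nt.SparseSequenceValues.result
    (F g : ℕ → ℕ) (hg : Tendsto g atTop atTop) :
    ∃ (K L : ℕ → Type) (_ : ∀ j, Field (K j)) (_ : ∀ j, NumberField (K j)) (_ : ∀ j, Field (L j))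
      (_ : ∀ j, NumberField (L j)) (_ : ∀ j, Algebra (K j) (L j))
      (_ : ∀ j, IsGalois (K j) (L j)),
      (∀ j, StarkW.GoodPair ∅ (K j) (L j) ∧ F j ≤ Module.finrank ℚ (K j)) ∧
      (∀ T : Finset ℕ, ∀ᶠ j in atTop, StarkW.GoodPair T (K j) (L j)) ∧
      (∀ (E : Type) [Field E] [NumberField E], ∀ᶠ j in atTop, StarkW.InAbelian E (K j) (L j)) ∧
      ∀ J : Set ℕ, (∃ᶠ a in atTop, ∀ j, a ≤ j → j ≤ a + g a → j ∈ J) →
        ∀ (n : ℕ) (G : Subgroup ℂˣ), 0 < n →
          (∀ u : ℂˣ, (u : ℂ) ∈ StarkV.cycField n → u ∈ G) →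
          (StarkM.Values G n ↔
            (∀ j ∈ J, StarkW.PowInFaithful G n (K j) (L j)) ∧ StarkM.ValuesB G n) := by
  obtain ⟨Y, h1, h2, h3, -, h5⟩ := StarkC.SSQM.fin2 F g hg
  exact ⟨fun j => (Y j).K, fun j => (Y j).L, fun j => (Y j).fK, fun j => (Y j).nK,
    fun j => (Y j).fL, fun j => (Y j).nL, fun j => (Y j).alg, fun j => (Y j).gal, h1, h2, h3,
    fun J hJ n G hn hG => h5 J n G hJ hn hG⟩
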