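import Pool.Agent.StarkU.PDefsV
import Pool.Agent.StarkU.PBridgeV
import Pool.Agent.StarkU.ALLV

/-!
# MP_46b841_nt: Stark's conjecture for characters with values in a cyclotomic field

For every number field `E`, every finite set `T` of prime numbers, every `n ≥ 1` and every
`σ ∈ Aut(ℂ)`: Stark's conjecture up to roots of unity for `σ` and for all characters with values in
`ℚ(ζ_n)` of all finite Galois extensions of number fields holds if and only if it holds for `σ`,
with `S = S_∞`, for the faithful linear characters `ψ` of `Gal(L/K)` in two cases: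
(A) `ψ^n = 1`, `K` is totally complex, `L/K` is unramified, the primes above `T` split completely
in `L`, and `L` lies in a field `N ⊇ E`, Galois over `ℚ` and cyclic over `K`;
(B) `K` is totally real, `ψ` is totally odd and has its values in `ℚ(ζ_n)`.
-/

theorem Pool.Agent.Results.MP_46b841_nt.UnramifiedCyclotomic.result :
    ∀ (E : Type) [Field E] [NumberField E] (T : Finset ℕ) (n : ℕ) (σ : ℂ ≃+* ℂ), 0 < n →
      (StarkV.StarkCyclotomic n σ ↔ StarkV.ClassA E T n σ ∧ StarkV.ClassB n σ) :=
  fun E _ _ T n σ hn => StarkVB.main StarkC.ALLV.ualgn StarkC.UCOMP_thm E T n hn σ
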